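import Pool.Agent.H.MP_d6d0a6_lc.C

/-! For every alphabet size `n ≥ 5` there is a morphically primitive pattern for which every
injective substitution is terminal-comprisingly ambiguous. -/

namespace Pool.Agent.Results.MP_00321d_lc.No

variable {n : ℕ}

/-- The image of a pattern (variables `inl`, letters `inr`) under a substitution. -/
def subst (σ : ℕ → List (Fin n)) (α : List (ℕ ⊕ Fin n)) : List (Fin n) :=
  α.flatMap (Sum.elim σ fun a => [a])

/-- The image of a pattern under a terminal-preserving morphism of patterns. -/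
def mor (χ : ℕ → List (ℕ ⊕ Fin n)) (α : List (ℕ ⊕ Fin n)) : List (ℕ ⊕ Fin n) :=
  α.flatMap (Sum.elim χ fun a => [.inr a])

def Primitive (α : List (ℕ ⊕ Fin n)) : Prop :=
  ¬∃ β φ ψ, β.length < α.length ∧ mor φ α = β ∧ mor ψ β = α

/-- The substitution is injective on nonempty words of variables. -/
def Inj (σ : ℕ → List (Fin n)) : Prop :=
  ∀ u v : List ℕ, u ≠ [] → v ≠ [] → u.flatMap σ = v.flatMap σ → u = v

/-- The word `subst τ α`, each position marked `true` if it comes from an occurrence of a variable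
and `false` if it comes from an occurrence of a terminal. -/
def lab (τ : ℕ → List (Fin n)) (α : List (ℕ ⊕ Fin n)) : List (Fin n × Bool) :=
  α.flatMap (Sum.elim (fun x => (τ x).map fun A => (A, true)) fun A => [(A, false)])

/-- The word `w` is terminal-comprisingly ambiguous with respect to `α`. -/
def TCA (α : List (ℕ ⊕ Fin n)) (w : List (Fin n)) : Prop :=
  (∃ A, .inr A ∈ α) ∧ ∃ τ₁ τ₂, subst τ₁ α = w ∧ subst τ₂ α = w ∧
    ∃ (p : ℕ) (A : Fin n), (lab τ₁ α)[p]? = some (A, true) ∧ (lab τ₂ α)[p]? = some (A, false)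

open List Pool.Agent.H.MP_d6d0a6_lc

theorem lab_len (τ : ℕ → List (Fin n)) (α : List (ℕ ⊕ Fin n)) :
    (lab τ α).length = (sub τ α).length := by
  simp only [lab, sub, length_flatMap]
  congr 1
  exact map_congr_left fun x _ => by cases x <;> simp

theorem lab_append (τ : ℕ → List (Fin n)) (α β : List (ℕ ⊕ Fin n)) :
    lab τ (α ++ β) = lab τ α ++ lab τ β := flatMap_append

theorem lab_var (τ : ℕ → List (Fin n)) (l : List ℕ) :
    lab τ (var l) = (l.flatMap τ).map fun A => (A, true) := by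
  simp [lab, var, flatMap_map, map_flatMap]

theorem result (n : ℕ) (hn : 5 ≤ n) :
    ∃ α : List (ℕ ⊕ Fin n), Primitive α ∧ ∀ σ, Inj σ → TCA α (subst σ α) := by
  let a : ℕ → Fin n := fun i => ⟨min i (n - 1), by omega⟩
  have hk : 0 < n := by omega
  refine ⟨al a n, ?_, fun σ hσ => ⟨⟨a 0, by simp [al, pat, bl]⟩, ?_⟩⟩
  · rintro ⟨_, φ, ψ, h4, rfl, h5⟩
    exact (prim a hk φ ψ h5).not_gt h4
  obtain ⟨A, hA⟩ : ∃ A, A ∈ Y.flatMap σ := by
    by_contra h
    have h1 : σ 0 = [] := eq_nil_iff_forall_not_mem.2 fun x hx => h ⟨x, by simp [Y, hx]⟩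
    simpa using hσ [0] [0, 0] (by simp) (by simp) (by simp [h1])
  obtain ⟨i, hi, rfl⟩ : ∃ i < n, A = a i := ⟨A, A.2, Fin.ext (by simp [a]; omega)⟩
  obtain ⟨u, v, h⟩ := append_of_mem hA
  obtain ⟨r, hr⟩ : ∃ r, al a n = pat ((range i).flatMap (gad a)) ++ (var [V 0 i] ++ ([.inr (a i)] ++
      (var (V 2 i :: V 3 i :: Y) ++ r))) := by
    obtain ⟨m, hm⟩ := Nat.exists_eq_add_of_lt hi
    have : range n = range i ++ i :: (range m).map fun j => i + (j + 1) := by
      rw [hm, add_assoc, range_add, range_succ_eq_map]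
      simp [Function.comp_def]
    rw [al, bl, this]
    exact ⟨_, by simp only [pat, gad, blk, flatMap_append, flatMap_cons, map_cons, append_assoc]; rfl⟩
  refine ⟨σ, ct σ i u (a i) v, rfl, ct_al hi h, (sub σ (pat ((range i).flatMap (gad a)))).length +
    (σ (V 0 i) ++ a i :: (σ (V 2 i) ++ σ (V 3 i) ++ u)).length, a i, ?_, ?_⟩
  · rw [hr, ← lab_len]
    simp only [lab_append, lab_var, flatMap_cons, h]
    simp [lab, getElem?_append_right]
  · rw [hr, ← sub_gads fun j _ => ct_gad h j, ← lab_len]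
    simp only [lab_append, lab_var, flatMap_cons]
    simp [lab, getElem?_append_right, ct, dec_V]

end Pool.Agent.Results.MP_00321d_lc.No
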